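import Pool.Agent.H438R3.CP.Main

/-!
# Length versus space for cutting planes, beyond linear space

A proof of `NP ≠ coNP` has to show that no proof system has short refutations of all unsatisfiable
CNFs. For proof systems as strong as cutting planes the known length lower bounds use
interpolation. Here interpolation is combined with a space lower bound for monotone real programs:
for all `c` and `g` there are CNFs with arbitrarily large numbers `N` of variables and at most
`N ^ 3` clauses which have resolution refutations with `N ^ (3 c + 4)` steps, but all of whose
cutting plane refutations with at most `N ^ g` steps need more than `N ^ c` memory cells, each of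
which may hold a linear inequality with arbitrary real coefficients.

The bound holds for all refutations whose lines are inequalities `u(x) + v(y) ≥ 0` for arbitrary
real functions `u` of a first group `x` and `v` of a second group `y` of variables (in particular
for all linear inequalities, part 1), and every line may be any consequence of an axiom or of two
lines in memory.

The formulas: a layered graph has a clique with one of `m` candidates at each of `k n` positions,
and its candidates have colours which satisfy on adjacent candidates an unsatisfiable system of
constraints (of Tseitin type). The parts of the proof (interpolation, the lower bound for monotone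
real programs which separate the two kinds of graphs, the resolution refutation, the numerical
estimates) are the starting files `Pool/Agent/H564R3/CP/`, which had been neither assembled nor
handed in; the assembly is `Pool/Agent/H438R3/CP/Main.lean`.
-/

set_option autoImplicit false

namespace Pool.Agent.Results.MP_9cec2c_lc.CuttingPlanesSpace

open Pool.Agent.H564R3.CP
open Pool.Agent.H564R3.PW (Pos)

theorem result :
    -- linear inequalities are lines
    (∀ (U W : Type) [Fintype U] [Fintype W] (a : U ⊕ W → ℝ) (b : ℝ),
      ∃ L : Line U W, ∀ z : U ⊕ W → Bool, L.Holds z ↔ b ≤ ∑ v, a v * (if z v then 1 else 0)) ∧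
    -- the trade-off
    (∀ c g : ℕ, ∃ (k n : ℕ) (Q : Type) (_ : Fintype Q) (_ : DecidableEq Q)
      (C : Pos k n × Pos k n → Q → Q → Bool), 1 ≤ k ∧ 1 ≤ n ∧ ∃ m₀ : ℕ, ∀ m ≥ m₀, ∀ N : ℕ,
        N = Fintype.card (Var k n m Q) →
        m ≤ N ∧
        -- at most `N ^ 3` clauses
        {a : Clause (Var k n m Q) | Formula C a}.Finite ∧
        {a : Clause (Var k n m Q) | Formula C a}.ncard ≤ N ^ 3 ∧
        -- a resolution refutation with at most `N ^ (3 c + 4)` steps
        (∃ L : List (Clause (Var k n m Q)), L.length ≤ N ^ (3 * c + 4) ∧
          ResChain {a : Clause (Var k n m Q) | Formula C a} L ∧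
          ∅ ∈ {a : Clause (Var k n m Q) | Formula C a} ∪ {a | a ∈ L}) ∧
        -- refutations with at most `N ^ g` steps need more than `N ^ c` memory cells
        ∀ (ρ : Type) [Fintype ρ] [DecidableEq ρ]
          (p : List (Step (XVar k n m) (YVar k n m Q) ρ)) (o : ρ),
          Refutes {a | Formula C a} p o → p.length ≤ N ^ g → N ^ c < Fintype.card ρ) := by
  refine ⟨fun U W _ _ a b => Pool.Agent.H438R3.CP.linear_line a b, fun c g => ?_⟩
  obtain ⟨k, n, Q, i1, i2, C, hk, hn, m₀, h⟩ := Pool.Agent.H438R3.CP.main c g
  refine ⟨k, n, Q, i1, i2, C, hk, hn, m₀, fun m hm N hN => ?_⟩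
  obtain ⟨h1, h2, h3, ⟨L, h4, h5, h6⟩, h7⟩ := h m hm N hN
  exact ⟨h1, h2, h3, ⟨L, h4, h5, h6 rfl⟩, h7⟩

end Pool.Agent.Results.MP_9cec2c_lc.CuttingPlanesSpace
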