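import Pool.Agent.H554R2.Cnf.SatMain
import Pool.Agent.H554R2.Cnf.Prog
import Pool.Agent.H554R2.Compl.Main

/-!
# Few rereads: nondeterministic programs are not closed under complement

Nondeterministic branching programs with `2 ^ s` nodes are a non-uniform model of nondeterministic
computation in space `s`.  We give functions (CNF formulas `F` with `O(n)` clauses of constant
width) whose negation has nondeterministic programs with `O(n)` nodes and `O(1)` queries (guess a
violated clause), and which are themselves computed by deterministic programs with `O(n)` nodes and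
`O(n)` queries, while nondeterministic programs of length `(1 + ε) n`, or with at most `ε n` bits
queried more than once, need `2 ^ (n / D)` nodes for `F`, even if they only have to accept a tiny
fraction of the inputs with value `1` in this way.

The theorem is put together from `mainStrong`, `violation_program` and `evaluation_program` of the
starting folder `Pool/Agent/H554R2/Cnf` (by helper554 and the helpers named there); their
combination had not been handed in.
-/

set_option autoImplicit false

namespace Pool.Agent.Results.MP_9cec2c_lc.FewRereads

open Finset Pool.Agent.H554R2.Sem Pool.Agent.H554R2.Cnf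

/-- The inputs with a fast accepting computation are the same for a program over the `n` bits and
for this program viewed as one with an empty set of further variables. -/
theorem fast_eq {n : ℕ} (P : NBP (Fin n)) (k : ℕ) :
    Nat.card {x : Pt n // ∃ l, P.Accepting x l ∧
        ((univ.filter (fun i => 2 ≤ (l.filterMap P.query).count i)).card ≤ k ∨
          (l.filterMap P.query).length ≤ n + k)} =
      (fastPts (Pool.Agent.H554R2.Compl.lift P) (fun e : Empty => e.elim) k).card := by
  classical
  rw [Nat.card_eq_fintype_card, Fintype.card_subtype]
  congr 1
  ext x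
  unfold fastPts
  simp only [mem_filter, mem_univ, true_and]
  refine exists_congr fun l => ?_
  refine and_congr (Pool.Agent.H554R2.Compl.lift_acc P _ x l).symm ?_
  have e := Pool.Agent.H554R2.Compl.lift_queries P l
  unfold reread
  rw [e]

/-- There is a constant `D` such that for all `n ≥ D` there is a CNF formula `F` in `n` variables
(a set of clauses, which are sets of literals) with at most `D n` clauses of at most `D` literals
and with the following properties; `Models F x` says that `x` satisfies all the clauses.

* A nondeterministic program with at most `D n` nodes accepts exactly the inputs which do not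
  satisfy `F`, with at most `D` queries on every accepting computation.
* A deterministic program with at most `D n` nodes (the next node is determined by the value of the
  queried bit, and there is no guessing) accepts exactly the inputs which satisfy `F`, with at most
  `D n` queries on every accepting computation.
* Let `P` be a nondeterministic program which accepts only inputs which satisfy `F`, and which
  accepts at least a fraction `2 ^ (- ⌊n / D⌋)` of these inputs by a computation on which at most
  `⌊n / D⌋` of the bits are queried more than once or at most `n + ⌊n / D⌋` queries are made.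
  Then `P` has at least `2 ^ ⌊n / D⌋` nodes. -/
theorem result : ∃ D : ℕ, 0 < D ∧ ∀ n ≥ D, ∃ F : Finset (Finset (Fin n × Bool)),
    F.card ≤ D * n ∧ (∀ c ∈ F, c.card ≤ D) ∧
    (∃ P : NBP (Fin n), Fintype.card P.State ≤ D * n ∧
      (∀ x, (∃ l, P.Accepting x l) ↔ ¬ Models F x) ∧
      ∀ x l, P.Accepting x l → (l.filterMap P.query).length ≤ D) ∧
    (∃ P : NBP (Fin n), Fintype.card P.State ≤ D * n ∧
      (∀ s b t t', P.edge s b t → P.edge s b t' → t = t') ∧
      (∀ s t, P.query s = none → (P.edge s true t ↔ P.edge s false t)) ∧
      (∀ x, (∃ l, P.Accepting x l) ↔ Models F x) ∧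
      ∀ x l, P.Accepting x l → (l.filterMap P.query).length ≤ D * n) ∧
    ∀ P : NBP (Fin n), (∀ x l, P.Accepting x l → Models F x) →
      Nat.card {x : Pt n // Models F x} ≤ 2 ^ (n / D) *
        Nat.card {x : Pt n // ∃ l, P.Accepting x l ∧
          ((univ.filter (fun i => 2 ≤ (l.filterMap P.query).count i)).card ≤ n / D ∨
            (l.filterMap P.query).length ≤ n + n / D)} →
      2 ^ (n / D) ≤ Fintype.card P.State := by
  classical
  obtain ⟨k, C, n0, h⟩ := mainStrong
  refine ⟨10 ^ 8 + n0 + k + C + (k + 1) * C + 1 + k * C, by positivity, fun n hn => ?_⟩
  set D := 10 ^ 8 + n0 + k + C + (k + 1) * C + 1 + k * C with hD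
  have hn1 : 1 ≤ n := le_trans (by omega) hn
  obtain ⟨F, h1, h2, h3⟩ := h n (by omega)
  have hdiv : n / D ≤ n / 10 ^ 8 := Nat.div_le_div_left (by omega) (by norm_num)
  have hcard : (k + 1) * F.card + 1 ≤ D * n := by
    calc (k + 1) * F.card + 1 ≤ (k + 1) * (C * n) + 1 * n :=
          Nat.add_le_add (Nat.mul_le_mul_left _ h1) (by omega)
      _ = ((k + 1) * C + 1) * n := by ring
      _ ≤ D * n := Nat.mul_le_mul_right _ (by omega)
  refine ⟨F, h1.trans (Nat.mul_le_mul_right _ (by omega)), fun c hc => (h2 c hc).trans (by omega),
    ?_, ?_, fun P hP hl => ?_⟩
  · obtain ⟨P, h4, h5, h6⟩ := violation_program k F h2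
    exact ⟨P, h4.trans hcard, h5, fun x l hx => (h6 x l hx).trans (by omega)⟩
  · obtain ⟨P, h4, h5, h6, h7, h8⟩ := evaluation_program k F h2
    refine ⟨P, h4.trans hcard, h5, h6, h7, fun x l hx => (h8 x l hx).trans ?_⟩
    calc k * F.card ≤ k * (C * n) := Nat.mul_le_mul_left _ h1
      _ = (k * C) * n := by ring
      _ ≤ D * n := Nat.mul_le_mul_right _ (by omega)
  · have hmono : Nat.card {x : Pt n // ∃ l, P.Accepting x l ∧
          ((univ.filter (fun i => 2 ≤ (l.filterMap P.query).count i)).card ≤ n / D ∨
            (l.filterMap P.query).length ≤ n + n / D)} ≤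
        Nat.card {x : Pt n // ∃ l, P.Accepting x l ∧
          ((univ.filter (fun i => 2 ≤ (l.filterMap P.query).count i)).card ≤ n / 10 ^ 8 ∨
            (l.filterMap P.query).length ≤ n + n / 10 ^ 8)} := by
      rw [Nat.card_eq_fintype_card, Nat.card_eq_fintype_card, Fintype.card_subtype,
        Fintype.card_subtype]
      refine Finset.card_le_card fun x hx => ?_
      obtain ⟨_, l, h4, h5⟩ := mem_filter.1 hx
      refine mem_filter.2 ⟨mem_univ _, l, h4, ?_⟩
      rcases h5 with h5 | h5
      · exact Or.inl (h5.trans hdiv)
      · exact Or.inr (h5.trans (by omega))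
    rw [fast_eq P (n / 10 ^ 8)] at hmono
    have key := h3 Empty (fun e => e.elim) (Pool.Agent.H554R2.Compl.lift P)
      (fun x l hx => hP x l ((Pool.Agent.H554R2.Compl.lift_acc P _ x l).1 hx))
      (hl.trans (Nat.mul_le_mul (Nat.pow_le_pow_right (by norm_num) hdiv) hmono))
    exact le_trans (Nat.pow_le_pow_right (by norm_num) hdiv) key

end Pool.Agent.Results.MP_9cec2c_lc.FewRereads
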