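import Pool.Agent.H530R3.Pcp.Main

/-!
# How dense must a random oracle be to separate `coNP` from `NP`, and from all probabilistically
# checkable proofs?

Choose a random oracle `A`: each string `x` is put into `A` independently of the others with
probability `p |x|`, where the densities `p n` are arbitrary numbers in `[0, 1]`. Let
`lam p n = 2 ^ n * min (p n) (1 - p n)`.

* If the sum of `lam p n` over all `n` diverges then almost surely some language in `coNP^A` is
  not in `NP^A` and does not even have probabilistically checkable proofs of exponential length
  relative to `A` (a polynomial-time verifier with a random string, questions to `A` and questions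
  to an arbitrary proof oracle).
* `NP = coNP` if and only if for all densities `p n` at most `1 / 2` the convergence of the sum
  decides whether almost surely `NP^A = coNP^A`, if and only if `NP^A = coNP^A` has positive
  probability for one such sequence of densities.

Proof of the first part. The test language asks whether one of `2 ^ m` disjoint blocks of `j`
strings of length about `n` is full of the less likely bit, where `2 ^ m * q ^ j` is of the order of
`min (1, lam p n)`. If the verifier accepts (that no block is full) with a proof `pi`, then for most
of the blocks its questions meet the block with small probability only, so with the same proof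
`pi` it still accepts with probability above `1/3` when this block is made full. In a window of
lengths in which the expected number of full blocks is between `1 / 4` and `1 / 2`, the verifier
is wrong somewhere with probability at least `1 / 18`, given everything that happened at smaller
lengths. If the sum converges then almost surely `A` is a finite variation of a fixed oracle.
-/

namespace Pool.Agent.Results.MP_9cec2c_lc.OracleDensityThreshold

open MeasureTheory Pool.Agent.NPC
open Pool.Agent.H628R3.RO (IsNP)
open Pool.Agent.H530R3.Thr (biasedOracle lam)
open Pool.Agent.H530R3.Pcp

theorem result :
    (∀ p : ℕ → unitInterval, ¬ Summable (lam p) → ∀ᵐ A ∂(biasedOracle p),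
      ∃ L : Set (List Bool), IsNP A L ∧ ¬ IsNP A Lᶜ ∧ ¬ IsPCP A Lᶜ) ∧
    ((∀ L : Set (List Bool), InNP L ↔ InCoNP L) ↔
      ∀ p : ℕ → unitInterval, (∀ n, (p n : ℝ) ≤ 1 / 2) →
        ((∀ᵐ A ∂(biasedOracle p), ∀ L : Set (List Bool), IsNP A L ↔ IsNP A Lᶜ) ↔
          Summable (lam p))) ∧
    ((∀ L : Set (List Bool), InNP L ↔ InCoNP L) ↔
      ∃ p : ℕ → unitInterval, (∀ n, (p n : ℝ) ≤ 1 / 2) ∧
        0 < biasedOracle p {A | ∀ L : Set (List Bool), IsNP A L ↔ IsNP A Lᶜ}) :=
  ⟨divergentPCP, conp_iff, conp_iff'⟩

end Pool.Agent.Results.MP_9cec2c_lc.OracleDensityThreshold
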