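import Pool.Agent.H334R5.Nd.Main

/-!
# NP and coNP: short proofs against one threshold pattern

Let `A` be an `NP`-hard set. `NP = coNP` means that there are short proofs of `x ∉ A` for all
strings `x` outside `A`. The theorem says that it is enough to have, for every list `x₁, …, xₘ` of
polynomially many strings outside `A`, a short proof of the much weaker statement that not exactly
the first `k` of these strings belong to `A`, for one number `k` of the prover's choice.

Polynomial time is Mathlib's `Turing.TM2ComputableInPolyTime` (through `Pool.Agent.NPC.PolyTime`);
`InNP`, `NPHard` are the usual notions. `Pattern` and `Refuter` are in `Pool.Agent.H334R5.Nd.Defs`.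
-/

set_option autoImplicit false

namespace Pool.Agent.Results.MP_9cec2c_lc.PatternRefuter

open Pool.Agent.NPC Pool.Agent.H334R5.Nd

/-- `NP = coNP` if and only if for some `NP`-hard set `A` there is a nondeterministic
polynomial-time algorithm which refutes, for every list of `m ≥ q(n)` strings of length at most `n`
outside `A`, one of the statements `x₁, …, xₖ ∈ A ∧ xₖ₊₁, …, xₘ ∉ A` (`0 ≤ k ≤ m`), and which never
refutes a true statement of this form. -/
theorem result :
    (∃ (A : Set (List Bool)) (q ℓ : Polynomial ℕ) (E : List (List Bool) → List Bool → ℕ),
      NPHard A ∧ Refuter A q ℓ E) ↔ ∀ L : Set (List Bool), InNP L → InNP Lᶜ :=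
  refuter_iff

end Pool.Agent.Results.MP_9cec2c_lc.PatternRefuter
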